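import Mathlib

/-! # MP_4467b5_nt: weighted density hypothesis, definitions -/

set_option autoImplicit false

namespace Pool.Agent.helper33.WD

open Complex MeasureTheory

/-- The Poisson kernel of the strip `0 < Re s < 1`: the density at the boundary point `i t` of the
harmonic measure seen from the point `x`, `0 < x < 1`. (The density at `1 + i t` is
`stripKernel (1 - x) t`.) -/
noncomputable def stripKernel (x t : ℝ) : ℝ :=
  Real.sin (Real.pi * x) / (2 * (Real.cosh (Real.pi * t) - Real.cos (Real.pi * x)))

/-- The integral of `log⁺ |ζ|` over the left side of the strip `1/2 < Re s < κ` with respect to the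
harmonic measure of the strip seen from the point `ρ`. -/
noncomputable def logAvg (κ : ℝ) (ρ : ℂ) : ℝ :=
  ∫ t : ℝ, stripKernel ((ρ.re - 1 / 2) / (κ - 1 / 2)) t *
    Real.posLog ‖riemannZeta (1 / 2 + (ρ.im + (κ - 1 / 2) * t) * I)‖

/-- The mollifier `∑_{n ≤ N} μ(n) n^(-s)`. -/
noncomputable def mob (N : ℕ) (s : ℂ) : ℂ :=
  ∑ n ∈ Finset.Icc 1 N, (ArithmeticFunction.moebius n : ℂ) * (n : ℂ) ^ (-s)

/-- The coefficients of `ζ(s) mob N s - 1`. -/
noncomputable def cf (N n : ℕ) : ℂ :=
  if n ≤ N then 0 else ∑ d ∈ n.divisors, if d ≤ N then (ArithmeticFunction.moebius d : ℂ) else 0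

/-- The entire function `(s - 1) ζ(s)`. -/
noncomputable def zz (s : ℂ) : ℂ := if s = 1 then 1 else (s - 1) * riemannZeta s

/-- Points of the circle seen from the centre: the map `(0, 2π) → ℝ`, boundary values of the
conformal map of the disc onto the upper half plane with `0 ↦ exp (i π x)`. -/
noncomputable def xi (x θ : ℝ) : ℝ := Real.sin (θ / 2 - Real.pi * x) / Real.sin (θ / 2)

/-- The height on the boundary of the strip that corresponds to the angle `θ`. -/
noncomputable def tt (x θ : ℝ) : ℝ := -(1 / Real.pi) * Real.log |xi x θ|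

end Pool.Agent.helper33.WD
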